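import Mathlib

/-!
# Independent set permutations: definitions, ordered counts
-/

set_option autoImplicit false

namespace Pool.Agent.Helper49.IP

open Finset

/-- the number of independent sets with `k` elements -/
noncomputable def indCount {V : Type*} (G : SimpleGraph V) (k : ℕ) : ℕ :=
  {s : Finset V | G.IsNIndepSet k s}.ncard

section

variable {V : Type*} [Fintype V]

open Classical in
/-- ordered independent sets with `k` elements -/
noncomputable def ordInd (G : SimpleGraph V) (k : ℕ) : Finset (Fin k → V) :=
  univ.filter fun f => ∀ i j, i ≠ j → f i ≠ f j ∧ ¬ G.Adj (f i) (f j)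

theorem mem_ordInd {G : SimpleGraph V} {k : ℕ} {f : Fin k → V} :
    f ∈ ordInd G k ↔ ∀ i j, i ≠ j → f i ≠ f j ∧ ¬ G.Adj (f i) (f j) := by
  simp [ordInd]

theorem ordInd_inj {G : SimpleGraph V} {k : ℕ} {f : Fin k → V} (hf : f ∈ ordInd G k) :
    Function.Injective f := by
  intro i j h
  by_contra hij
  exact (mem_ordInd.1 hf i j hij).1 h

open Classical in
theorem ordInd_image {G : SimpleGraph V} {k : ℕ} {f : Fin k → V} (hf : f ∈ ordInd G k) :
    G.IsNIndepSet k (univ.image f) := by
  refine ⟨?_, ?_⟩
  · intro v hv w hw hvw
    simp only [coe_image, coe_univ, Set.image_univ, Set.mem_range] at hv hw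
    obtain ⟨i, rfl⟩ := hv
    obtain ⟨j, rfl⟩ := hw
    exact (mem_ordInd.1 hf i j fun h => hvw (by rw [h])).2
  · rw [card_image_of_injective _ (ordInd_inj hf), card_univ, Fintype.card_fin]

open Classical in
theorem ordInd_of_image {G : SimpleGraph V} {k : ℕ} {f : Fin k → V}
    (hf : G.IsNIndepSet k (univ.image f)) : f ∈ ordInd G k := by
  have hinj : Function.Injective f := by
    have h1 := hf.card_eq
    have h2 : (univ.image f).card = (univ : Finset (Fin k)).card := by
      rw [h1, card_univ, Fintype.card_fin]
    exact Set.injOn_univ.1 (by simpa using card_image_iff.1 h2)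
  rw [mem_ordInd]
  intro i j hij
  refine ⟨fun h => hij (hinj h), ?_⟩
  exact hf.isIndepSet (by simp) (by simp) fun h => hij (hinj h)

open Classical in
theorem card_fiber (s : Finset V) :
    (univ.filter fun f : Fin s.card → V => univ.image f = s).card = s.card.factorial := by
  have h1 : Fintype.card (Fin s.card ≃ s) = s.card.factorial := by
    rw [Fintype.card_equiv s.equivFin.symm, Fintype.card_fin]
  rw [← h1, ← card_univ]
  refine (card_bij (fun (e : Fin s.card ≃ s) _ => fun i => (e i : V)) ?_ ?_ ?_).symm
  · intro e _
    simp only [mem_filter, mem_univ, true_and]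
    ext v
    simp only [mem_image, mem_univ, true_and]
    constructor
    · rintro ⟨i, rfl⟩
      exact (e i).2
    · intro hv
      exact ⟨e.symm ⟨v, hv⟩, by simp⟩
  · intro e _ e' _ h
    ext i
    exact congrFun h i
  · intro f hf
    simp only [mem_filter, mem_univ, true_and] at hf
    have hmem : ∀ i, f i ∈ s := fun i => by
      rw [← hf]
      exact mem_image_of_mem _ (mem_univ i)
    have hsurj : Function.Surjective fun i => (⟨f i, hmem i⟩ : s) := by
      rintro ⟨v, hv⟩
      have hv' := hv
      rw [← hf, mem_image] at hv'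
      obtain ⟨i, -, hi⟩ := hv'
      exact ⟨i, Subtype.ext hi⟩
    have hbij : Function.Bijective fun i => (⟨f i, hmem i⟩ : s) :=
      (Fintype.bijective_iff_surjective_and_card _).2 ⟨hsurj, by simp⟩
    exact ⟨Equiv.ofBijective _ hbij, mem_univ _, rfl⟩

theorem card_ordInd (G : SimpleGraph V) (k : ℕ) :
    (ordInd G k).card = k.factorial * indCount G k := by
  classical
  have h1 : indCount G k = (univ.filter fun s : Finset V => G.IsNIndepSet k s).card := by
    rw [indCount, ← Set.ncard_coe_finset]
    congr 1
    ext s
    simp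
  rw [h1, card_eq_sum_card_fiberwise (f := fun f : Fin k → V => univ.image f)
    (t := univ.filter fun s : Finset V => G.IsNIndepSet k s)]
  · rw [sum_const_nat (m := k.factorial), mul_comm]
    intro s hs
    rw [mem_filter] at hs
    have hk := hs.2.card_eq
    subst hk
    rw [← card_fiber s]
    congr 1
    ext f
    simp only [mem_filter, mem_univ, true_and]
    constructor
    · exact fun h => h.2
    · intro h
      refine ⟨ordInd_of_image ?_, h⟩
      rw [h]
      exact hs.2
  · intro f hf
    simp only [coe_filter, mem_univ, true_and, Set.mem_ofPred_eq]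
    exact ordInd_image hf

/-- the independence number through the counts -/
theorem indepNum_eq {G : SimpleGraph V} {m : ℕ} (h1 : indCount G m ≠ 0)
    (h2 : indCount G (m + 1) = 0) : G.indepNum = m := by
  classical
  have hfin : ∀ k, {s : Finset V | G.IsNIndepSet k s}.Finite := fun k => Set.toFinite _
  obtain ⟨s, hs⟩ := Set.nonempty_of_ncard_ne_zero h1
  refine le_antisymm ?_ ?_
  · by_contra hcon
    rw [not_le] at hcon
    obtain ⟨t, ht⟩ := G.exists_isNIndepSet_indepNum
    obtain ⟨t', ht', hc⟩ := exists_subset_card_eq (s := t) (n := m + 1) (by rw [ht.card_eq]; exact hcon)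
    have h3 : t' ∈ {s : Finset V | G.IsNIndepSet (m + 1) s} :=
      ⟨fun v hv w hw hvw => ht.isIndepSet (ht' hv) (ht' hw) hvw, hc⟩
    rw [indCount, Set.ncard_eq_zero (hfin _)] at h2
    rw [h2] at h3
    exact h3
  · have h3 := hs.isIndepSet.card_le_indepNum
    rwa [hs.card_eq] at h3

theorem indCount_indepNum {G : SimpleGraph V} {m : ℕ} (h : G.indepNum = m) :
    indCount G m ≠ 0 ∧ indCount G (m + 1) = 0 := by
  classical
  have hfin : ∀ k, {s : Finset V | G.IsNIndepSet k s}.Finite := fun k => Set.toFinite _
  constructor
  · obtain ⟨s, hs⟩ := G.exists_isNIndepSet_indepNum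
    rw [h] at hs
    exact Set.ncard_ne_zero_of_mem hs (hfin m)
  · rw [indCount, Set.ncard_eq_zero (hfin _)]
    ext s
    simp only [Set.mem_ofPred_eq, Set.mem_empty_iff_false, iff_false]
    intro hs
    have h3 := hs.isIndepSet.card_le_indepNum
    rw [hs.card_eq, h] at h3
    omega

theorem indCount_one (G : SimpleGraph V) : indCount G 1 = Fintype.card V := by
  have h1 := card_ordInd G 1
  rw [Nat.factorial_one, one_mul] at h1
  rw [← h1]
  have h2 : ordInd G 1 = univ := by
    ext f
    simp only [mem_univ, iff_true]
    rw [mem_ordInd]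
    intro i j hij
    exact absurd (Subsingleton.elim i j) hij
  rw [h2, card_univ]
  simp

end

end Pool.Agent.Helper49.IP
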