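import Pool.Agent.Helper49.IP.Entropy

/-!
# Independent set permutations: the lower bound
-/

set_option autoImplicit false

namespace Pool.Agent.Helper49.IP

open Finset

section

variable {V : Type*} [Fintype V] {G : SimpleGraph V} {m : ℕ}

theorem log_bound {N L c n : ℝ} (hN : 0 < N) (hL : 0 < L) (hc : 0 < c) (hn : 0 < n) :
    (L * c)⁻¹ - n / N ≤ (L * c)⁻¹ * (Real.log N - Real.log L - Real.log c - Real.log n) := by
  have h1 := Real.one_sub_inv_le_log_of_pos (x := N / (L * c * n)) (by positivity)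
  rw [Real.log_div hN.ne' (by positivity), Real.log_mul (by positivity) hn.ne',
    Real.log_mul hL.ne' hc.ne'] at h1
  have h2 : (L * c)⁻¹ - n / N = (L * c)⁻¹ * (1 - (N / (L * c * n))⁻¹) := by
    field_simp
  rw [h2]
  refine mul_le_mul_of_nonneg_left ?_ (by positivity)
  linarith

theorem gibbs_pt (hα : ordInd G (m + 1) = ∅) {f : Fin m → V} (hf : f ∈ ordInd G m)
    {A : Finset (Fin m)} (hA : Aᶜ.Nonempty) :
    0 ≤ Real.log ((cls G m A f).card : ℝ) - Real.log (Aᶜ.card : ℝ) -
      (Aᶜ.card : ℝ)⁻¹ * ∑ i ∈ Aᶜ, (Real.log ((cls G m (univ.erase i) f).card : ℝ) +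
        ∑ h ∈ cls G m (univ.erase i) f, ((cls G m (univ.erase i) f).card : ℝ)⁻¹ *
          Real.log ((cls G m (insert i A) h).card : ℝ)) := by
  have hL : 0 < (Aᶜ.card : ℝ) := by exact_mod_cast card_pos.2 hA
  have hN := cls_pos (A := A) hf
  have h1 := gibbs_count hα hf A
  have h2 : ∑ i ∈ Aᶜ, ∑ h ∈ cls G m (univ.erase i) f, ((cls G m (insert i A) h).card : ℝ) ≤
      ((cls G m A f).card : ℝ) := by exact_mod_cast h1
  have h3 : ∀ i ∈ Aᶜ, ∀ h ∈ cls G m (univ.erase i) f,
      ((Aᶜ.card : ℝ) * ((cls G m (univ.erase i) f).card : ℝ))⁻¹ -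
        ((cls G m (insert i A) h).card : ℝ) / ((cls G m A f).card : ℝ) ≤
      ((Aᶜ.card : ℝ) * ((cls G m (univ.erase i) f).card : ℝ))⁻¹ *
        (Real.log ((cls G m A f).card : ℝ) - Real.log (Aᶜ.card : ℝ) -
          Real.log ((cls G m (univ.erase i) f).card : ℝ) -
          Real.log ((cls G m (insert i A) h).card : ℝ)) := by
    intro i _ h hh
    exact log_bound hN hL (cls_pos hf) (cls_pos (mem_cls.1 hh).1)
  have h4 := sum_le_sum fun i hi => sum_le_sum (h3 i hi)
  have h5 : ∑ i ∈ Aᶜ, ∑ h ∈ cls G m (univ.erase i) f,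
      (((Aᶜ.card : ℝ) * ((cls G m (univ.erase i) f).card : ℝ))⁻¹ -
        ((cls G m (insert i A) h).card : ℝ) / ((cls G m A f).card : ℝ)) =
      1 - (∑ i ∈ Aᶜ, ∑ h ∈ cls G m (univ.erase i) f, ((cls G m (insert i A) h).card : ℝ)) /
        ((cls G m A f).card : ℝ) := by
    have h6 : ∀ i ∈ Aᶜ, ∑ h ∈ cls G m (univ.erase i) f,
      (((Aᶜ.card : ℝ) * ((cls G m (univ.erase i) f).card : ℝ))⁻¹ -
        ((cls G m (insert i A) h).card : ℝ) / ((cls G m A f).card : ℝ)) =
        (Aᶜ.card : ℝ)⁻¹ - (∑ h ∈ cls G m (univ.erase i) f,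
          ((cls G m (insert i A) h).card : ℝ)) / ((cls G m A f).card : ℝ) := by
      intro i _
      have hc := cls_pos (A := univ.erase i) hf
      rw [sum_sub_distrib, sum_const, nsmul_eq_mul, sum_div]
      congr 1
      field_simp
    rw [sum_congr rfl h6, sum_sub_distrib, sum_const, nsmul_eq_mul, mul_inv_cancel₀ hL.ne', sum_div]
  have h7 : ∑ i ∈ Aᶜ, ∑ h ∈ cls G m (univ.erase i) f,
      ((Aᶜ.card : ℝ) * ((cls G m (univ.erase i) f).card : ℝ))⁻¹ *
        (Real.log ((cls G m A f).card : ℝ) - Real.log (Aᶜ.card : ℝ) -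
          Real.log ((cls G m (univ.erase i) f).card : ℝ) -
          Real.log ((cls G m (insert i A) h).card : ℝ)) =
      Real.log ((cls G m A f).card : ℝ) - Real.log (Aᶜ.card : ℝ) -
      (Aᶜ.card : ℝ)⁻¹ * ∑ i ∈ Aᶜ, (Real.log ((cls G m (univ.erase i) f).card : ℝ) +
        ∑ h ∈ cls G m (univ.erase i) f, ((cls G m (univ.erase i) f).card : ℝ)⁻¹ *
          Real.log ((cls G m (insert i A) h).card : ℝ)) := by
    have h8 : ∀ i ∈ Aᶜ, ∑ h ∈ cls G m (univ.erase i) f,
      ((Aᶜ.card : ℝ) * ((cls G m (univ.erase i) f).card : ℝ))⁻¹ *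
        (Real.log ((cls G m A f).card : ℝ) - Real.log (Aᶜ.card : ℝ) -
          Real.log ((cls G m (univ.erase i) f).card : ℝ) -
          Real.log ((cls G m (insert i A) h).card : ℝ)) =
        (Aᶜ.card : ℝ)⁻¹ * (Real.log ((cls G m A f).card : ℝ) - Real.log (Aᶜ.card : ℝ)) -
        (Aᶜ.card : ℝ)⁻¹ * (Real.log ((cls G m (univ.erase i) f).card : ℝ) +
        ∑ h ∈ cls G m (univ.erase i) f, ((cls G m (univ.erase i) f).card : ℝ)⁻¹ *
          Real.log ((cls G m (insert i A) h).card : ℝ)) := by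
      intro i _
      have hc := cls_pos (A := univ.erase i) hf
      rw [← mul_sum, sum_sub_distrib, sum_const, nsmul_eq_mul, ← mul_sum]
      field_simp
      ring
    rw [sum_congr rfl h8, sum_sub_distrib, sum_const, nsmul_eq_mul, ← mul_assoc,
      mul_inv_cancel₀ hL.ne', one_mul, ← mul_sum]
  rw [h5, h7] at h4
  refine le_trans ?_ h4
  rw [sub_nonneg, div_le_one hN]
  exact h2

theorem gibbs_sum (hα : ordInd G (m + 1) = ∅) {A : Finset (Fin m)} (hA : Aᶜ.Nonempty) :
    ((ordInd G m).card : ℝ) * Real.log (Aᶜ.card : ℝ) +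
      (Aᶜ.card : ℝ)⁻¹ * ∑ i ∈ Aᶜ, (Phi G m (univ.erase i) + Phi G m (insert i A)) ≤
      Phi G m A := by
  have h1 := sum_nonneg fun f (hf : f ∈ ordInd G m) => gibbs_pt hα hf hA
  rw [sum_sub_distrib, sum_sub_distrib, sum_const, nsmul_eq_mul, ← mul_sum, sum_comm] at h1
  have h2 : ∀ i ∈ Aᶜ, ∑ f ∈ ordInd G m, (Real.log ((cls G m (univ.erase i) f).card : ℝ) +
        ∑ h ∈ cls G m (univ.erase i) f, ((cls G m (univ.erase i) f).card : ℝ)⁻¹ *
          Real.log ((cls G m (insert i A) h).card : ℝ)) =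
      Phi G m (univ.erase i) + Phi G m (insert i A) := by
    intro i _
    rw [sum_add_distrib]
    congr 1
    exact resample (univ.erase i) fun h => Real.log ((cls G m (insert i A) h).card : ℝ)
  rw [sum_congr rfl h2] at h1
  have h3 : ∑ f ∈ ordInd G m, Real.log ((cls G m A f).card : ℝ) = Phi G m A := rfl
  rw [h3] at h1
  linarith

/-- initial segment -/
def ini (m j : ℕ) : Finset (Fin m) := univ.filter fun i => (i : ℕ) < j

theorem mem_ini {j : ℕ} {i : Fin m} : i ∈ ini m j ↔ (i : ℕ) < j := by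
  simp [ini]

theorem ini_zero : ini m 0 = ∅ := by
  ext i
  simp [ini]

theorem ini_succ {j : ℕ} (hj : j < m) : ini m (j + 1) = insert ⟨j, hj⟩ (ini m j) := by
  ext i
  rw [mem_insert, mem_ini, mem_ini, Fin.ext_iff]
  simp only
  omega

theorem ini_card_compl {j : ℕ} (hj : j ≤ m) : (ini m j)ᶜ.card = m - j := by
  have h1 : (ini m j).card = j := by
    have h2 : ini m j = (univ : Finset (Fin j)).map (Fin.castLEEmb hj) := by
      ext i
      rw [mem_ini, mem_map]
      constructor
      · intro h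
        exact ⟨⟨i, h⟩, mem_univ _, rfl⟩
      · rintro ⟨l, -, rfl⟩
        exact l.2
    rw [h2, card_map, card_univ, Fintype.card_fin]
  rw [card_compl, h1, Fintype.card_fin]

theorem Phi_step (hα : ordInd G (m + 1) = ∅) {j : ℕ} (hj : j < m) :
    ((ordInd G m).card : ℝ) * Real.log ((m - j : ℕ) : ℝ) + Phi G m (ini m (m - 1)) +
      Phi G m (ini m (j + 1)) ≤ Phi G m (ini m j) := by
  have hlast : ini m (m - 1) = univ.erase ⟨m - 1, by omega⟩ := by
    ext i
    rw [mem_ini, mem_erase, Ne, Fin.ext_iff]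
    simp only [mem_univ, and_true]
    omega
  have hne : (ini m j)ᶜ.Nonempty := by
    rw [← card_pos, ini_card_compl hj.le]
    omega
  have h1 := gibbs_sum hα hne
  have h2 : ∀ i ∈ (ini m j)ᶜ, Phi G m (univ.erase i) + Phi G m (insert i (ini m j)) =
      Phi G m (ini m (m - 1)) + Phi G m (ini m (j + 1)) := by
    intro i hi
    rw [mem_compl] at hi
    rw [hlast, ini_succ hj, Phi_erase i ⟨m - 1, by omega⟩,
      Phi_insert hi (j := ⟨j, hj⟩) (by rw [mem_ini]; simp)]
  rw [sum_congr rfl h2, sum_const, nsmul_eq_mul, ini_card_compl hj.le, ← mul_assoc,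
    inv_mul_cancel₀ (by
      have h3 : m - j ≠ 0 := by omega
      exact_mod_cast h3), one_mul] at h1
  linarith

theorem Phi_zero : Phi G m (ini m 0) = ((ordInd G m).card : ℝ) *
    Real.log ((ordInd G m).card : ℝ) := by
  rw [Phi, sum_congr rfl (g := fun _ => Real.log ((ordInd G m).card : ℝ)), sum_const, nsmul_eq_mul]
  intro f _
  congr 3
  ext g
  rw [mem_cls, ini_zero]
  simp

/-- few restrictions, small entropy -/
theorem Phi_restrict {j : ℕ} (hj : j ≤ m) (hT : (ordInd G m).Nonempty) :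
    ((ordInd G m).card : ℝ) * Real.log ((ordInd G m).card : ℝ) - Phi G m (ini m j) ≤
      ((ordInd G m).card : ℝ) * Real.log ((ordInd G j).card : ℝ) := by
  classical
  have hT0 : 0 < ((ordInd G m).card : ℝ) := by exact_mod_cast card_pos.2 hT
  set ρ : (Fin m → V) → (Fin j → V) := fun f l => f (Fin.castLE hj l) with hρ
  have hmaps : ∀ f ∈ ordInd G m, ρ f ∈ ordInd G j := by
    intro f hf
    rw [mem_ordInd] at hf ⊢
    intro a b hab
    exact hf _ _ fun h => hab (Fin.castLE_injective hj h)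
  have hQ : 0 < ((ordInd G j).card : ℝ) := by
    obtain ⟨f, hf⟩ := hT
    exact_mod_cast card_pos.2 ⟨ρ f, hmaps f hf⟩
  have hcls : ∀ f, cls G m (ini m j) f = (ordInd G m).filter fun g => ρ g = ρ f := by
    intro f
    ext g
    rw [mem_cls, mem_filter]
    refine and_congr_right fun _ => ⟨fun h => ?_, fun h i hi => ?_⟩
    · ext l
      exact h _ (mem_ini.2 l.2)
    · rw [mem_ini] at hi
      exact congrFun h ⟨i, hi⟩
  have h1 : ∑ f ∈ ordInd G m, ((cls G m (ini m j) f).card : ℝ)⁻¹ ≤ ((ordInd G j).card : ℝ) := by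
    rw [← sum_fiberwise_of_maps_to hmaps]
    rw [← nsmul_one, ← sum_const]
    refine sum_le_sum fun p _ => ?_
    have h2 : ∀ f ∈ (ordInd G m).filter (fun f => ρ f = p),
        ((cls G m (ini m j) f).card : ℝ)⁻¹ =
          (((ordInd G m).filter fun g => ρ g = p).card : ℝ)⁻¹ := by
      intro f hf
      rw [hcls, (mem_filter.1 hf).2]
    rw [sum_congr rfl h2, sum_const, nsmul_eq_mul]
    rcases eq_or_ne ((ordInd G m).filter fun g => ρ g = p).card 0 with h3 | h3
    · rw [h3]
      simp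
    · rw [mul_inv_cancel₀ (by exact_mod_cast h3)]
  have h3 : ∀ f ∈ ordInd G m, Real.log ((ordInd G m).card : ℝ) -
      Real.log ((cls G m (ini m j) f).card : ℝ) - Real.log ((ordInd G j).card : ℝ) ≤
      ((ordInd G m).card : ℝ) / ((ordInd G j).card : ℝ) *
        ((cls G m (ini m j) f).card : ℝ)⁻¹ - 1 := by
    intro f hf
    have hc := cls_pos (A := ini m j) hf
    have h4 := Real.log_le_sub_one_of_pos (x := ((ordInd G m).card : ℝ) /
      (((cls G m (ini m j) f).card : ℝ) * ((ordInd G j).card : ℝ))) (by positivity)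
    rw [Real.log_div hT0.ne' (by positivity), Real.log_mul hc.ne' hQ.ne'] at h4
    have h5 : ((ordInd G m).card : ℝ) / (((cls G m (ini m j) f).card : ℝ) *
        ((ordInd G j).card : ℝ)) = ((ordInd G m).card : ℝ) / ((ordInd G j).card : ℝ) *
        ((cls G m (ini m j) f).card : ℝ)⁻¹ := by
      field_simp
    rw [h5] at h4
    linarith
  have h6 := sum_le_sum h3
  rw [sum_sub_distrib, sum_sub_distrib, sum_const, sum_const, sum_sub_distrib, sum_const,
    ← mul_sum, nsmul_eq_mul, nsmul_eq_mul, nsmul_eq_mul] at h6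
  have h7 : ((ordInd G m).card : ℝ) / ((ordInd G j).card : ℝ) *
      ∑ f ∈ ordInd G m, ((cls G m (ini m j) f).card : ℝ)⁻¹ ≤ ((ordInd G m).card : ℝ) := by
    refine (mul_le_mul_of_nonneg_left h1 (by positivity)).trans_eq ?_
    field_simp
  have h8 : ∑ f ∈ ordInd G m, Real.log ((cls G m (ini m j) f).card : ℝ) = Phi G m (ini m j) := rfl
  rw [h8] at h6
  linarith

/-- the main lower bound, in logarithmic form -/
theorem Phi_chain (hα : ordInd G (m + 1) = ∅) {k : ℕ} (hk : k ≤ m) :
    ((ordInd G m).card : ℝ) * Real.log ((m.descFactorial k : ℕ) : ℝ) +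
      k * Phi G m (ini m (m - 1)) + Phi G m (ini m k) ≤ Phi G m (ini m 0) := by
  induction k with
  | zero => simp
  | succ k ih =>
    have h1 := ih (by omega)
    have h2 := Phi_step hα (j := k) (by omega)
    have h3 : ((m.descFactorial (k + 1) : ℕ) : ℝ) =
        ((m - k : ℕ) : ℝ) * ((m.descFactorial k : ℕ) : ℝ) := by
      rw [Nat.descFactorial_succ]
      push_cast
      ring
    have h4 : ((m - k : ℕ) : ℝ) ≠ 0 := by
      have h5 : m - k ≠ 0 := by omega
      exact_mod_cast h5
    have h5 : ((m.descFactorial k : ℕ) : ℝ) ≠ 0 := by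
      have h6 : m.descFactorial k ≠ 0 := by
        rw [Ne, Nat.descFactorial_eq_zero_iff_lt]
        omega
      exact_mod_cast h6
    rw [h3, Real.log_mul h4 h5]
    push_cast
    linarith

/-- If `i_(m-1) ≤ i_m`, `m` the independence number, then `i_k ≥ C(m, k) m ^ k` for all `k ≤ m`. -/
theorem lower {G : SimpleGraph V} {m : ℕ} (hm : 1 ≤ m) (hα : G.indepNum = m)
    (h : indCount G (m - 1) ≤ indCount G m) {k : ℕ} (hk : k ≤ m) :
    m.choose k * m ^ k ≤ indCount G k := by
  obtain ⟨h1, h2⟩ := indCount_indepNum hα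
  have hα' : ordInd G (m + 1) = ∅ := by
    rw [← card_eq_zero, card_ordInd, h2, mul_zero]
  have hTc := card_ordInd G m
  have hT : 0 < (ordInd G m).card := by
    rw [hTc]
    exact Nat.mul_pos (Nat.factorial_pos _) (Nat.pos_of_ne_zero h1)
  have hT0 : 0 < ((ordInd G m).card : ℝ) := by exact_mod_cast hT
  have hm0 : (0 : ℝ) < m := by exact_mod_cast hm
  have hD : ((ordInd G m).card : ℝ) * Real.log m ≤ Phi G m (ini m (m - 1)) := by
    have h3 := Phi_restrict (j := m - 1) (by omega) (card_pos.1 hT)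
    have h4 : (ordInd G (m - 1)).card * m ≤ (ordInd G m).card := by
      rw [card_ordInd, hTc]
      have h5 : m.factorial = m * (m - 1).factorial := (Nat.mul_factorial_pred (by omega)).symm
      rw [h5]
      calc (m - 1).factorial * indCount G (m - 1) * m =
          m * (m - 1).factorial * indCount G (m - 1) := by ring
        _ ≤ m * (m - 1).factorial * indCount G m := Nat.mul_le_mul_left _ h
    have hP : 0 < ((ordInd G (m - 1)).card : ℝ) := by
      have h5 : 0 < (ordInd G (m - 1)).card := by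
        obtain ⟨f, hf⟩ := card_pos.1 hT
        refine card_pos.2 ⟨fun l => f (Fin.castLE (by omega) l), ?_⟩
        rw [mem_ordInd] at hf ⊢
        intro a b hab
        exact hf _ _ fun h => hab (Fin.castLE_injective _ h)
      exact_mod_cast h5
    have h5 : Real.log ((ordInd G (m - 1)).card : ℝ) + Real.log m ≤
        Real.log ((ordInd G m).card : ℝ) := by
      rw [← Real.log_mul hP.ne' hm0.ne']
      exact Real.log_le_log (by positivity) (by exact_mod_cast h4)
    have h6 := mul_le_mul_of_nonneg_left h5 hT0.le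
    linarith
  have h3 := Phi_chain hα' hk
  have h4 := Phi_restrict hk (card_pos.1 hT)
  rw [Phi_zero] at h3
  have h5 : (k : ℝ) * (((ordInd G m).card : ℝ) * Real.log m) ≤
      k * Phi G m (ini m (m - 1)) := mul_le_mul_of_nonneg_left hD (Nat.cast_nonneg k)
  have hQ : 0 < ((ordInd G k).card : ℝ) := by
    have h5 : 0 < (ordInd G k).card := by
      obtain ⟨f, hf⟩ := card_pos.1 hT
      refine card_pos.2 ⟨fun l => f (Fin.castLE hk l), ?_⟩
      rw [mem_ordInd] at hf ⊢
      intro a b hab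
      exact hf _ _ fun h => hab (Fin.castLE_injective _ h)
    exact_mod_cast h5
  have hdf : 0 < ((m.descFactorial k : ℕ) : ℝ) := by
    have h6 : 0 < m.descFactorial k := by
      rw [Nat.pos_iff_ne_zero, Ne, Nat.descFactorial_eq_zero_iff_lt]
      omega
    exact_mod_cast h6
  have h6 : Real.log ((m.descFactorial k : ℕ) : ℝ) + k * Real.log m ≤
      Real.log ((ordInd G k).card : ℝ) := by
    refine le_of_mul_le_mul_left ?_ hT0
    linarith
  rw [← Real.log_pow, ← Real.log_mul hdf.ne' (by positivity),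
    Real.log_le_log_iff (by positivity) hQ] at h6
  have h7 : m.descFactorial k * m ^ k ≤ (ordInd G k).card := by exact_mod_cast h6
  rw [card_ordInd, Nat.descFactorial_eq_factorial_mul_choose, mul_assoc] at h7
  exact Nat.le_of_mul_le_mul_left h7 (Nat.factorial_pos k)

end

end Pool.Agent.Helper49.IP
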