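import Pool.Agent.Helper49.IP.Conds
import Pool.Agent.Helper49.IP.Lower

/-!
# Independent set permutations: main theorem
-/

set_option autoImplicit false

namespace Pool.Agent.Helper49.IP

open Finset

/-- `π` is an independent set permutation of `G`; the entry of `π` at the position `i + 1` is
`π i + 1` -/
def IsIndPerm {V : Type*} (G : SimpleGraph V) {m : ℕ} (π : Equiv.Perm (Fin m)) : Prop :=
  G.indepNum = m ∧
    ∀ i j : Fin m, i ≤ j → indCount G ((π i : ℕ) + 1) ≤ indCount G ((π j : ℕ) + 1)

/-- the orders of the finite graphs with the independent set permutation `π` -/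
def orders {m : ℕ} (π : Equiv.Perm (Fin m)) : Set ℕ :=
  {n | ∃ (V : Type) (_ : Fintype V) (G : SimpleGraph V), Fintype.card V = n ∧ IsIndPerm G π}

/-- the least order -/
noncomputable def minOrder {m : ℕ} (π : Equiv.Perm (Fin m)) : ℕ := sInf (orders π)

/-- the entry `k` of `π` precedes the entry `l` -/
def Before {m : ℕ} (π : Equiv.Perm (Fin m)) (k l : ℕ) : Prop :=
  ∃ i j : Fin m, i < j ∧ (π i : ℕ) + 1 = k ∧ (π j : ℕ) + 1 = l

section

variable {m : ℕ} {π : Equiv.Perm (Fin m)}

theorem entry_inj {i j : Fin m} (h : (π i : ℕ) + 1 = (π j : ℕ) + 1) : i = j :=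
  π.injective (Fin.ext (by omega))

theorem before_asymm {k l : ℕ} (h : Before π k l) (h' : Before π l k) : False := by
  obtain ⟨i, j, hij, h1, h2⟩ := h
  obtain ⟨a, b, hab, h3, h4⟩ := h'
  have e1 : j = a := entry_inj (h2.trans h3.symm)
  have e2 : i = b := entry_inj (h1.trans h4.symm)
  subst e1 e2
  exact lt_asymm hij hab

theorem before_trans {k l p : ℕ} (h : Before π k l) (h' : Before π l p) : Before π k p := by
  obtain ⟨i, j, hij, h1, h2⟩ := h
  obtain ⟨a, b, hab, h3, h4⟩ := h'
  have e1 : j = a := entry_inj (h2.trans h3.symm)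
  subst e1
  exact ⟨i, b, hij.trans hab, h1, h4⟩

theorem before_range {k l : ℕ} (h : Before π k l) : (1 ≤ k ∧ k ≤ m) ∧ 1 ≤ l ∧ l ≤ m := by
  obtain ⟨i, j, -, rfl, rfl⟩ := h
  exact ⟨⟨by omega, (π i).2⟩, by omega, (π j).2⟩

theorem before_total {k l : ℕ} (hk : 1 ≤ k) (hk' : k ≤ m) (hl : 1 ≤ l) (hl' : l ≤ m)
    (hne : k ≠ l) : Before π k l ∨ Before π l k := by
  have e1 : (π (π.symm ⟨k - 1, by omega⟩) : ℕ) + 1 = k := by
    rw [Equiv.apply_symm_apply]
    simp only
    omega
  have e2 : (π (π.symm ⟨l - 1, by omega⟩) : ℕ) + 1 = l := by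
    rw [Equiv.apply_symm_apply]
    simp only
    omega
  rcases lt_trichotomy (π.symm ⟨k - 1, by omega⟩) (π.symm ⟨l - 1, by omega⟩) with h | h | h
  · exact Or.inl ⟨_, _, h, e1, e2⟩
  · exfalso
    rw [h] at e1
    exact hne (e1.symm.trans e2)
  · exact Or.inr ⟨_, _, h, e2, e1⟩

theorem count_before {V : Type*} {G : SimpleGraph V} (h : IsIndPerm G π) {k l : ℕ}
    (hkl : Before π k l) : indCount G k ≤ indCount G l := by
  obtain ⟨i, j, hij, rfl, rfl⟩ := hkl
  exact h.2 i j hij.le

theorem mem_orders {V : Type} [Fintype V] {G : SimpleGraph V} (hα : G.indepNum = m) {t : ℕ → ℕ}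
    (ht : ∀ k, 1 ≤ k → indCount G k = t k) (h : ∀ k l, Before π k l → t k ≤ t l) :
    t 1 ∈ orders π := by
  refine ⟨V, inferInstance, G, ?_, hα, fun i j hij => ?_⟩
  · rw [← ht 1 le_rfl, indCount_one]
  · rcases hij.eq_or_lt with rfl | hij
    · exact le_rfl
    · rw [ht _ (by omega), ht _ (by omega)]
      exact h _ _ ⟨i, j, hij, rfl, rfl⟩

theorem lower_orders (hm : 2 ≤ m) (h : Before π (m - 1) m) {n : ℕ} (hn : n ∈ orders π) {k : ℕ}
    (hk : k = 1 ∨ Before π k 1) : m.choose k * m ^ k ≤ n := by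
  obtain ⟨V, _, G, rfl, hG⟩ := hn
  have h1 := count_before hG h
  have hkm : k ≤ m := by
    rcases hk with rfl | hk
    · omega
    · exact (before_range hk).1.2
  have h2 := lower (by omega) hG.1 h1 hkm
  rw [← indCount_one G]
  rcases hk with rfl | hk
  · exact h2
  · exact h2.trans (count_before hG hk)

open Classical in
/-- `m - 1` before `m` -/
theorem up_A (hm : 2 ≤ m) (h : Before π (m - 1) m) {c : ℕ} (hc : 9 * c ≤ 2 * m ^ 2) :
    (if 1 + 2 ≤ m ∧ Before π 1 (m - 1) then m ^ m - c * m ^ (m - 2) else m ^ m) ∈ orders π := by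
  classical
  obtain ⟨V, _, G, hα, hG⟩ := realize (s := m) (by omega) (by omega)
    (cond_A (X := fun k => Before π k (m - 1)) (by omega) hc)
    (by rw [wA_of_not le_rfl (by omega)]; simp)
  set t : ℕ → ℕ := fun k => if k ≤ m then
    (if k + 2 ≤ m ∧ Before π k (m - 1) then m ^ m - c * m ^ (m - 2) else m ^ m) else 0 with ht
  have hcount : ∀ k, 1 ≤ k → indCount G k = t k := by
    intro k hk
    rw [hG k hk, ht]
    simp only
    split_ifs with h1 h2
    · rw [wA_of h2.1 h2.2, Nat.sub_mul, ← pow_add, mul_assoc, ← pow_add]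
      rw [show m - k + k = m by omega, show m - 2 - k + k = m - 2 by omega]
    · rw [wA_of_not h1 h2, ← pow_add, show m - k + k = m by omega]
    · rw [wA_zero (by omega), zero_mul]
  have hmem := mem_orders hα hcount (π := π) (by
    intro k l hkl
    obtain ⟨⟨hk1, hkm⟩, hl1, hlm⟩ := before_range hkl
    rw [ht]
    simp only [hkm, hlm, if_true]
    split_ifs with h1 h2 h2
    · exact le_rfl
    · exact Nat.sub_le _ _
    · exfalso
      have h3 := before_trans hkl h2.2
      have h4 : ¬ k + 2 ≤ m := fun h5 => h1 ⟨h5, h3⟩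
      rcases (show k = m - 1 ∨ k = m by omega) with h5 | h5
      · rw [h5] at h3
        exact before_asymm h3 h3
      · rw [h5] at h3
        exact before_asymm h3 h
    · exact le_rfl)
  have h1 : t 1 = if 1 + 2 ≤ m ∧ Before π 1 (m - 1) then m ^ m - c * m ^ (m - 2) else m ^ m := by
    rw [ht]
    simp only [show 1 ≤ m by omega, if_true]
  rw [← h1]
  exact hmem

/-- `m` before `m - 1` -/
theorem up_B (hm : 2 ≤ m) (h : Before π m (m - 1)) {s : ℕ} (hsm : s ≤ m)
    (hs : s + 1 = m ∨ 6 * m ≤ 7 * s) : ∃ n ∈ orders π, n ≤ m * s ^ (m - 1) := by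
  classical
  have hs0 : 1 ≤ s := by omega
  obtain ⟨V, _, G, hα, hG⟩ := realize (s := s) (by omega) hs0
    (cond_B (Y := fun k => Before π k m) hm hs0 hsm hs (fun h' => before_asymm h h'))
    (by rw [wB_self])
  set t : ℕ → ℕ := fun k => if k ≤ m then
    (if k = m ∨ Before π k m then s ^ m else m * s ^ (m - 1)) else 0 with ht
  have hcount : ∀ k, 1 ≤ k → indCount G k = t k := by
    intro k hk
    rw [hG k hk, ht]
    simp only
    split_ifs with h1 h2
    · rcases h2 with rfl | h2
      · rw [wB_self, one_mul]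
      · by_cases h3 : k = m
        · rw [h3, wB_self, one_mul]
        · rw [wB, if_neg (by omega), if_neg h3, if_pos h2, ← pow_add,
            show m - k + k = m by omega]
    · rw [not_or] at h2
      rw [wB, if_neg (by omega), if_neg h2.1, if_neg h2.2, mul_assoc, ← pow_add,
        show m - k - 1 + k = m - 1 by have := h2.1; omega]
    · rw [wB_zero (by omega), zero_mul]
  have hle : s ^ m ≤ m * s ^ (m - 1) := by
    calc s ^ m = s * s ^ (m - 1) := by
          rw [← pow_succ']
          congr 1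
          omega
      _ ≤ m * s ^ (m - 1) := Nat.mul_le_mul_right _ hsm
  refine ⟨t 1, mem_orders hα hcount ?_, ?_⟩
  · intro k l hkl
    obtain ⟨⟨hk1, hkm⟩, hl1, hlm⟩ := before_range hkl
    rw [ht]
    simp only [hkm, hlm, if_true]
    split_ifs with h1 h2 h2
    · exact le_rfl
    · exact hle
    · exfalso
      apply h1
      rcases h2 with h2 | h2
      · exact Or.inr (h2 ▸ hkl)
      · exact Or.inr (before_trans hkl h2)
    · exact le_rfl
  · rw [ht]
    simp only [show 1 ≤ m by omega, if_true]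
    split_ifs
    · exact hle
    · exact le_rfl

/-- the entries above `c` come last, in increasing order -/
theorem up_C (hm : 2 ≤ m) {c : ℕ} (hc1 : 1 ≤ c) (hc : c < m)
    (h1 : ∀ k l, 1 ≤ k → k ≤ c → c < l → l ≤ m → Before π k l)
    (h2 : ∀ k l, c < k → k < l → l ≤ m → Before π k l) : m.choose c * m ^ c ∈ orders π := by
  classical
  obtain ⟨V, _, G, hα, hG⟩ := realize' (s := m) (by omega) (by omega)
    (cond_C (m := m) (c := c) (by omega) hc.le)
  set t : ℕ → ℕ := fun k => if k < c then m.choose c * m ^ c else m.choose k * m ^ k with ht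
  have hcount : ∀ k, 1 ≤ k → indCount G k = t k := by
    intro k hk
    rw [hG k hk, ht, wC]
    simp only
    split_ifs with h3
    · have h4 := bin_le (m := m) (by omega) (k := k) h3.le hc.le
      rw [Nat.add_sub_cancel' h4, mul_assoc, ← pow_add, show c - k + k = c by omega]
    · rw [add_zero]
  have h3 := mem_orders hα hcount (π := π) (by
    intro k l hkl
    obtain ⟨⟨hk1, hkm⟩, hl1, hlm⟩ := before_range hkl
    have hkl' : k ≠ l := by
      rintro rfl
      exact before_asymm hkl hkl
    rw [ht]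
    simp only
    split_ifs with h3 h4 h4
    · exact le_rfl
    · exact bin_mono (by omega) hlm
    · rcases (show k = c ∨ c < k by omega) with h5 | h5
      · rw [h5]
      · exact absurd (h1 l k hl1 h4.le h5 hkm) fun h6 => before_asymm h6 hkl
    · by_cases h5 : k ≤ l
      · exact bin_mono h5 hlm
      · exfalso
        rcases (show l = c ∨ c < l by omega) with h6 | h6
        · exact before_asymm (h1 l k hl1 h6.le (by omega) hkm) hkl
        · exact before_asymm (h2 l k h6 (by omega) hkm) hkl)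
  have h4 : t 1 = m.choose c * m ^ c := by
    rw [ht]
    simp only
    split_ifs with h5
    · rfl
    · rw [show c = 1 by omega]
  rw [← h4]
  exact h3

theorem orders_nonempty (hm : 2 ≤ m) : (orders π).Nonempty := by
  rcases before_total (π := π) (k := m - 1) (l := m) (by omega) (by omega) (by omega) le_rfl
    (by omega) with h | h
  · exact ⟨_, up_A hm h (c := 0) (by omega)⟩
  · obtain ⟨n, hn, -⟩ := up_B hm h (s := m - 1) (by omega) (by omega)
    exact ⟨n, hn⟩

theorem isLeast_minOrder (hm : 2 ≤ m) : IsLeast (orders π) (minOrder π) :=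
  ⟨Nat.sInf_mem (orders_nonempty hm), fun _ hn => Nat.sInf_le hn⟩

theorem exact_A (hm : 2 ≤ m) (h : Before π (m - 1) m) (h1 : m = 2 ∨ Before π (m - 1) 1) :
    minOrder π = m ^ m := by
  have hL := isLeast_minOrder (π := π) hm
  refine le_antisymm ?_ ?_
  · have h2 := hL.2 (up_A hm h (c := 0) (by omega))
    have h3 : ¬ (1 + 2 ≤ m ∧ Before π 1 (m - 1)) := by
      rintro ⟨h4, h5⟩
      rcases h1 with h1 | h1
      · omega
      · exact before_asymm h5 h1
    rwa [if_neg h3] at h2
  · have h2 := lower_orders hm h hL.1 (k := m - 1) (by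
      rcases h1 with h1 | h1
      · left
        omega
      · exact Or.inr h1)
    have h3 : m.choose (m - 1) = m := by
      rw [Nat.choose_symm_of_eq_add (show m = m - 1 + 1 by omega), Nat.choose_one_right]
    rw [h3, ← pow_succ', show m - 1 + 1 = m by omega] at h2
    exact h2

/-- main theorem -/
theorem main (m : ℕ) (hm : 2 ≤ m) (π : Equiv.Perm (Fin m)) :
    IsLeast (orders π) (minOrder π) ∧
    (minOrder π = m ^ m ↔ Before π (m - 1) m ∧ (m = 2 ∨ Before π (m - 1) 1)) ∧
    (Before π (m - 1) m → Before π 1 (m - 1) →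
      ∀ c, 9 * c ≤ 2 * m ^ 2 → minOrder π ≤ m ^ m - c * m ^ (m - 2)) ∧
    (Before π m (m - 1) →
      ∀ s, s ≤ m → s = m - 1 ∨ 6 * m ≤ 7 * s → minOrder π ≤ m * s ^ (m - 1)) ∧
    (Before π (m - 1) m → ∀ k, k = 1 ∨ Before π k 1 → m.choose k * m ^ k ≤ minOrder π) ∧
    (∀ c, 1 ≤ c → c < m → c = 1 ∨ Before π c 1 →
      (∀ k l, 1 ≤ k → k ≤ c → c < l → l ≤ m → Before π k l) →
      (∀ k l, c < k → k < l → l ≤ m → Before π k l) → minOrder π = m.choose c * m ^ c) := by
  have hL := isLeast_minOrder (π := π) hm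
  have hA : Before π (m - 1) m → Before π 1 (m - 1) →
      ∀ c, 9 * c ≤ 2 * m ^ 2 → minOrder π ≤ m ^ m - c * m ^ (m - 2) := by
    intro h h1 c hc
    have h2 := hL.2 (up_A hm h hc)
    have h3 : 1 + 2 ≤ m := by
      by_contra hcon
      have h4 : m - 1 = 1 := by omega
      rw [h4] at h1
      exact before_asymm h1 h1
    rwa [if_pos ⟨h3, h1⟩] at h2
  have hB : Before π m (m - 1) →
      ∀ s, s ≤ m → s = m - 1 ∨ 6 * m ≤ 7 * s → minOrder π ≤ m * s ^ (m - 1) := by
    intro h s hsm hs
    obtain ⟨n, hn, hle⟩ := up_B hm h hsm (hs.imp_left fun h' => by omega)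
    exact (hL.2 hn).trans hle
  refine ⟨hL, ⟨fun heq => ?_, fun h => exact_A hm h.1 h.2⟩, hA, hB,
    fun h k hk => lower_orders hm h hL.1 hk, fun c hc1 hc h0 h1 h2 => ?_⟩
  · have hpos : 0 < m := by omega
    rcases before_total (π := π) (k := m - 1) (l := m) (by omega) (by omega) (by omega) le_rfl
      (by omega) with h | h
    · refine ⟨h, ?_⟩
      by_contra hcon
      rw [not_or] at hcon
      rcases before_total (π := π) (k := 1) (l := m - 1) le_rfl (by omega) (by omega) (by omega)
        (by have := hcon.1; omega) with h1 | h1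
      · have h3 : 3 ≤ m := by have := hcon.1; omega
        have h2 := hA h h1 1 (by nlinarith)
        rw [heq, one_mul] at h2
        have h4 : 0 < m ^ (m - 2) := pow_pos hpos _
        have h5 : m ^ (m - 2) ≤ m ^ m := Nat.pow_le_pow_right hpos (by omega)
        omega
      · exact hcon.2 h1
    · exfalso
      have h2 := hB h (m - 1) (by omega) (Or.inl rfl)
      rw [heq] at h2
      have h3 : (m - 1) ^ (m - 1) < m ^ (m - 1) := Nat.pow_lt_pow_left (by omega) (by omega)
      have h4 : m ^ m = m * m ^ (m - 1) := by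
        rw [← pow_succ']
        congr 1
        omega
      rw [h4] at h2
      exact absurd (Nat.le_of_mul_le_mul_left h2 hpos) (by omega)
  · refine le_antisymm (hL.2 (up_C hm hc1 hc h1 h2)) ?_
    have h : Before π (m - 1) m := by
      rcases (show c = m - 1 ∨ c < m - 1 by omega) with h3 | h3
      · exact h1 _ _ (by omega) (by omega) (by omega) le_rfl
      · exact h2 _ _ h3 (by omega) le_rfl
    exact lower_orders hm h hL.1 h0

end

end Pool.Agent.Helper49.IP
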