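import Pool.Agent.Helper49.IP.Weights

/-!
# Independent set permutations: the weights
-/

set_option autoImplicit false

namespace Pool.Agent.Helper49.IP

open Finset

theorem c2 (k : ℕ) : 2 * (k + 2).choose 2 = (k + 1) * (k + 2) := by
  have h := Nat.triangle_succ (k + 1)
  rw [← Nat.choose_two_right] at h
  have h1 : (k + 1 + 1).choose 2 = (k + 1).choose 1 + (k + 1).choose 2 := rfl
  have h2 := Nat.choose_two_right (k + 2)
  have h3 : 2 ∣ (k + 2) * (k + 2 - 1) := (Nat.even_mul_pred_self (k + 2)).two_dvd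
  rw [h2, Nat.mul_div_cancel' h3, show k + 2 - 1 = k + 1 by omega, mul_comm]

theorem c3 (k : ℕ) : 6 * (k + 3).choose 3 = (k + 1) * (k + 2) * (k + 3) := by
  have h := Nat.descFactorial_eq_factorial_mul_choose (k + 3) 3
  have h1 : (3 : ℕ).factorial = 6 := rfl
  rw [h1] at h
  rw [← h]
  simp only [Nat.descFactorial_succ, Nat.descFactorial_zero]
  have e1 : k + 3 - 2 = k + 1 := by omega
  have e2 : k + 3 - 1 = k + 2 := by omega
  have e3 : k + 3 - 0 = k + 3 := by omega
  rw [e1, e2, e3]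
  ring

section A

variable (m c : ℕ) (X : ℕ → Prop)

open Classical in
/-- weights: `m - 1` before `m` -/
noncomputable def wA (k : ℕ) : ℕ :=
  if m < k then 0 else if k + 2 ≤ m ∧ X k then m ^ (m - k) - c * m ^ (m - 2 - k) else m ^ (m - k)

variable {m c X}

theorem wA_zero {k : ℕ} (h : m < k) : wA m c X k = 0 := by
  rw [wA, if_pos h]

theorem wA_le {k : ℕ} (h : k ≤ m) : wA m c X k ≤ m ^ (m - k) := by
  rw [wA, if_neg (by omega)]
  split_ifs
  · exact Nat.sub_le _ _
  · exact le_rfl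

theorem wA_ge (hc : 9 * c ≤ 2 * m ^ 2) {k : ℕ} (h : k ≤ m) :
    7 * m ^ (m - k) ≤ 9 * wA m c X k := by
  rw [wA, if_neg (by omega)]
  split_ifs with h1
  · have h2 : m ^ (m - k) = m ^ 2 * m ^ (m - 2 - k) := by
      rw [← pow_add]
      congr 1
      omega
    rw [Nat.mul_sub, h2]
    have h3 : 9 * (c * m ^ (m - 2 - k)) ≤ 2 * (m ^ 2 * m ^ (m - 2 - k)) := by
      calc 9 * (c * m ^ (m - 2 - k)) = (9 * c) * m ^ (m - 2 - k) := by ring
        _ ≤ (2 * m ^ 2) * m ^ (m - 2 - k) := Nat.mul_le_mul_right _ hc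
        _ = _ := by ring
    omega
  · omega

theorem wA_of_not {k : ℕ} (h : k ≤ m) (h1 : ¬ (k + 2 ≤ m ∧ X k)) : wA m c X k = m ^ (m - k) := by
  rw [wA, if_neg (by omega), if_neg h1]

theorem wA_of {k : ℕ} (h : k + 2 ≤ m) (h1 : X k) :
    wA m c X k = m ^ (m - k) - c * m ^ (m - 2 - k) := by
  rw [wA, if_neg (by omega), if_pos ⟨h, h1⟩]

theorem cond_A (hm : 1 ≤ m) (hc : 9 * c ≤ 2 * m ^ 2) : Cond m (wA m c X) := by
  refine ⟨fun j hj => wA_zero hj, fun k hk hkm => ?_⟩
  obtain ⟨t, rfl | rfl | rfl | ht⟩ : ∃ t, m = k ∨ m = k + 1 ∨ m = k + 2 ∨ m = k + 3 + t :=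
    ⟨m - k - 3, by omega⟩
  · rw [wA_zero (k := m + 1) (by omega), wA_zero (k := m + 3) (by omega)]
    simp
  · rw [wA_zero (k := k + 3) (by omega), wA_of_not (k := k + 1) le_rfl (by omega),
      wA_of_not (k := k) (by omega) (by omega)]
    rw [show k + 1 - (k + 1) = 0 by omega, show k + 1 - k = 1 by omega]
    simp
  · rw [wA_zero (k := k + 3) (by omega), wA_of_not (k := k + 1) (by omega) (by omega),
      wA_of_not (k := k + 2) (by omega) (by omega)]
    have h1 := wA_ge (X := X) hc (k := k) (by omega)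
    rw [show k + 2 - k = 2 by omega] at h1
    rw [show k + 2 - (k + 1) = 1 by omega, show k + 2 - (k + 2) = 0 by omega]
    have h2 := c2 k
    simp only [pow_one, pow_zero, mul_one, mul_zero, add_zero]
    nlinarith
  · have h1 := wA_le (c := c) (X := X) (m := m) (k := k + 1) (by omega)
    have h3 := wA_le (c := c) (X := X) (m := m) (k := k + 3) (by omega)
    have h0 := wA_ge (X := X) hc (k := k) (by omega)
    have h2 := wA_ge (X := X) hc (k := k + 2) (by omega)
    rw [show m - (k + 1) = t + 2 by omega] at h1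
    rw [show m - (k + 3) = t by omega] at h3
    rw [show m - k = t + 3 by omega] at h0
    rw [show m - (k + 2) = t + 1 by omega] at h2
    have e2 := c2 k
    have e3 := c3 k
    set C2 := (k + 2).choose 2
    set C3 := (k + 3).choose 3
    have hpoly : 18 * (k + 1) * m ^ 2 + 18 * C3 ≤ 14 * m ^ 3 + 14 * C2 * m := by
      have h5 : 14 * m ^ 3 + 14 * C2 * m = 14 * m ^ 3 + 7 * ((k + 1) * (k + 2)) * m := by
        rw [← e2]
        ring
      have h6 : 18 * (k + 1) * m ^ 2 + 18 * C3 =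
          18 * (k + 1) * m ^ 2 + 3 * ((k + 1) * (k + 2) * (k + 3)) := by
        rw [← e3]
        ring
      rw [h5, h6]
      refine Nat.le.intro (k := (k + 1 + 1) * (11 * (k + 1) + 14) +
        (t + 1) * (k + 1 + 1) * (13 * (k + 1) + 42) + (t + 1) ^ 2 * (24 * (k + 1) + 42) +
        14 * (t + 1) ^ 3) ?_
      rw [ht]
      ring
    have h7 := Nat.mul_le_mul_right (m ^ t) hpoly
    have h8 := Nat.mul_le_mul_left (18 * (k + 1)) h1
    have h9 := Nat.mul_le_mul_left (18 * C3) h3
    have h10 := Nat.mul_le_mul_left (2 * C2) h2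
    refine Nat.le_of_mul_le_mul_left (c := 18) ?_ (by norm_num)
    calc 18 * ((k + 1) * wA m c X (k + 1) + C3 * wA m c X (k + 3)) =
        18 * (k + 1) * wA m c X (k + 1) + 18 * C3 * wA m c X (k + 3) := by ring
      _ ≤ 18 * (k + 1) * m ^ (t + 2) + 18 * C3 * m ^ t := Nat.add_le_add h8 h9
      _ = (18 * (k + 1) * m ^ 2 + 18 * C3) * m ^ t := by ring
      _ ≤ (14 * m ^ 3 + 14 * C2 * m) * m ^ t := h7
      _ = 2 * (7 * m ^ (t + 3)) + 2 * C2 * (7 * m ^ (t + 1)) := by ring
      _ ≤ 2 * (9 * wA m c X k) + 2 * C2 * (9 * wA m c X (k + 2)) :=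
        Nat.add_le_add (Nat.mul_le_mul_left _ h0) h10
      _ = _ := by ring

end A

section B

variable (m s : ℕ) (Y : ℕ → Prop)

open Classical in
/-- weights: `m` before `m - 1` -/
noncomputable def wB (k : ℕ) : ℕ :=
  if m < k then 0 else if k = m then 1 else
    if Y k then s ^ (m - k) else m * s ^ (m - k - 1)

variable {m s Y}

theorem wB_zero {k : ℕ} (h : m < k) : wB m s Y k = 0 := by
  rw [wB, if_pos h]

theorem wB_self : wB m s Y m = 1 := by
  rw [wB, if_neg (by omega), if_pos rfl]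

theorem wB_le (hs : s ≤ m) {k : ℕ} (h : k ≤ m) : s * wB m s Y k ≤ m * s ^ (m - k) := by
  rw [wB, if_neg (by omega)]
  split_ifs with h1 h2
  · subst h1
    rw [Nat.sub_self, pow_zero]
    omega
  · exact Nat.mul_le_mul_right _ hs
  · have h3 : s ^ (m - k) = s * s ^ (m - k - 1) := by
      rw [← pow_succ']
      congr 1
      omega
    rw [h3]
    exact le_of_eq (by ring)

theorem wB_ge (hs : s ≤ m) {k : ℕ} (h : k ≤ m) : s ^ (m - k) ≤ wB m s Y k := by
  rw [wB, if_neg (by omega)]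
  split_ifs with h1 h2
  · subst h1
    rw [Nat.sub_self, pow_zero]
  · exact le_rfl
  · have h3 : s ^ (m - k) = s * s ^ (m - k - 1) := by
      rw [← pow_succ']
      congr 1
      omega
    rw [h3]
    exact Nat.mul_le_mul_right _ hs

theorem poly_B {n : ℕ} (hn : n + 2 ≤ m) (hm : 3 ≤ m) (hs : s + 1 = m ∨ 6 * m ≤ 7 * s) :
    6 * m * n * s ^ 2 + m * (n * (n + 1) * (n + 2)) ≤
      6 * s ^ 4 + 3 * (n * (n + 1)) * s ^ 2 := by
  rcases hs with hs | hs
  · subst hs
    obtain ⟨u, hu⟩ : ∃ u, s = n + 1 + u := ⟨s - n - 1, by omega⟩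
    have h1 : (s + 1) * n ≤ s ^ 2 := by
      rw [hu]
      nlinarith
    have h2 : (s + 1) * (n + 2) ≤ 3 * s ^ 2 := by
      rw [hu]
      nlinarith
    calc 6 * (s + 1) * n * s ^ 2 + (s + 1) * (n * (n + 1) * (n + 2)) =
        6 * ((s + 1) * n) * s ^ 2 + n * (n + 1) * ((s + 1) * (n + 2)) := by ring
      _ ≤ 6 * s ^ 2 * s ^ 2 + n * (n + 1) * (3 * s ^ 2) :=
        Nat.add_le_add (Nat.mul_le_mul_right _ (Nat.mul_le_mul_left _ h1))
          (Nat.mul_le_mul_left _ h2)
      _ = _ := by ring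
  · have h1 : 36 * m ^ 2 ≤ 49 * s ^ 2 := by nlinarith
    have h2 : 2 * m * n ≤ m ^ 2 + n * (n + 1) := by
      zify
      nlinarith [sq_nonneg ((m : ℤ) - n)]
    have h3 : n * (n + 1) * (n + 2) ≤ m ^ 3 := by
      calc n * (n + 1) * (n + 2) ≤ m * m * m :=
            Nat.mul_le_mul (Nat.mul_le_mul (by omega) (by omega)) (by omega)
        _ = m ^ 3 := by ring
    have h4 : m * m ^ 3 + 3 * m ^ 2 * s ^ 2 ≤ 6 * s ^ 4 := by
      set a := s ^ 2 with ha
      set b := m ^ 2 with hb
      have e1 : s ^ 4 = a ^ 2 := by rw [ha]; ring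
      have e2 : m * m ^ 3 = b ^ 2 := by rw [hb]; ring
      rw [e1, e2]
      zify at h1 ⊢
      have hb0 : (0 : ℤ) ≤ b := Int.natCast_nonneg _
      nlinarith
    calc 6 * m * n * s ^ 2 + m * (n * (n + 1) * (n + 2)) ≤
        3 * (m ^ 2 + n * (n + 1)) * s ^ 2 + m * m ^ 3 := by
          refine Nat.add_le_add ?_ (Nat.mul_le_mul_left _ h3)
          calc 6 * m * n * s ^ 2 = 3 * (2 * m * n) * s ^ 2 := by ring
            _ ≤ _ := Nat.mul_le_mul_right _ (Nat.mul_le_mul_left _ h2)
      _ = (m * m ^ 3 + 3 * m ^ 2 * s ^ 2) + 3 * (n * (n + 1)) * s ^ 2 := by ring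
      _ ≤ _ := Nat.add_le_add_right h4 _

theorem cond_B (hm : 2 ≤ m) (hs0 : 1 ≤ s) (hsm : s ≤ m) (hs : s + 1 = m ∨ 6 * m ≤ 7 * s)
    (hY : ¬ Y (m - 1)) : Cond m (wB m s Y) := by
  refine ⟨fun j hj => wB_zero hj, fun k hk hkm => ?_⟩
  have hm1 : ∀ k, k + 1 = m → wB m s Y k = m := by
    intro k hk
    have h1 : k = m - 1 := by omega
    rw [wB, if_neg (by omega), if_neg (by omega), h1, if_neg hY, show m - (m - 1) - 1 = 0 by omega]
    simp
  obtain ⟨t, h | h | h | ht⟩ : ∃ t, m = k ∨ m = k + 1 ∨ m = k + 2 ∨ m = k + 3 + t :=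
    ⟨m - k - 3, by omega⟩
  · rw [wB_zero (k := k + 1) (by omega), wB_zero (k := k + 3) (by omega)]
    simp
  · have e1 : wB m s Y (k + 1) = 1 := by
      rw [← h]
      exact wB_self
    rw [wB_zero (k := k + 3) (by omega), e1, hm1 k h.symm, h]
    simp
  · have e1 : wB m s Y (k + 2) = 1 := by
      rw [← h]
      exact wB_self
    rw [wB_zero (k := k + 3) (by omega), e1, hm1 (k + 1) (by omega)]
    have h1 := wB_ge (Y := Y) hsm (k := k) (by omega)
    rw [show m - k = 2 by omega] at h1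
    have h2 := c2 k
    have h3 : m * (k + 1) ≤ 2 * s ^ 2 := by
      rcases hs with hs | hs
      · have h4 : s = k + 1 := by omega
        rw [h, h4]
        nlinarith
      · nlinarith
    rw [h] at h1 h3 ⊢
    simp only [mul_one, mul_zero, add_zero]
    nlinarith
  · have h1 := wB_le (Y := Y) hsm (k := k + 1) (by omega)
    have h3 := wB_le (Y := Y) hsm (k := k + 3) (by omega)
    have h0 := wB_ge (Y := Y) hsm (k := k) (by omega)
    have h2 := wB_ge (Y := Y) hsm (k := k + 2) (by omega)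
    rw [show m - (k + 1) = t + 2 by omega] at h1
    rw [show m - (k + 3) = t by omega] at h3
    rw [show m - k = t + 3 by omega] at h0
    rw [show m - (k + 2) = t + 1 by omega] at h2
    have e2 := c2 k
    have e3 := c3 k
    have hp := poly_B (m := m) (s := s) (n := k + 1) (by omega) (by omega) hs
    have hpoly : 6 * (k + 1) * m * s ^ 2 + 6 * (k + 3).choose 3 * m ≤
        6 * s ^ 4 + 6 * (k + 2).choose 2 * s ^ 2 := by
      calc 6 * (k + 1) * m * s ^ 2 + 6 * (k + 3).choose 3 * m =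
          6 * m * (k + 1) * s ^ 2 + m * ((k + 1) * (k + 1 + 1) * (k + 1 + 2)) := by
            rw [e3]
            ring
        _ ≤ 6 * s ^ 4 + 3 * ((k + 1) * (k + 1 + 1)) * s ^ 2 := hp
        _ = 6 * s ^ 4 + 3 * ((k + 1) * (k + 2)) * s ^ 2 := by ring
        _ = _ := by
          rw [← e2]
          ring
    set C2 := (k + 2).choose 2
    set C3 := (k + 3).choose 3
    have h7 := Nat.mul_le_mul_right (s ^ t) hpoly
    have h8 := Nat.mul_le_mul_left (6 * (k + 1)) h1
    have h9 := Nat.mul_le_mul_left (6 * C3) h3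
    have h10 := Nat.mul_le_mul_left (6 * C2 * s) h2
    refine Nat.le_of_mul_le_mul_left (c := 6 * s) ?_ (by omega)
    calc 6 * s * ((k + 1) * wB m s Y (k + 1) + C3 * wB m s Y (k + 3)) =
        6 * (k + 1) * (s * wB m s Y (k + 1)) + 6 * C3 * (s * wB m s Y (k + 3)) := by ring
      _ ≤ 6 * (k + 1) * (m * s ^ (t + 2)) + 6 * C3 * (m * s ^ t) := Nat.add_le_add h8 h9
      _ = (6 * (k + 1) * m * s ^ 2 + 6 * C3 * m) * s ^ t := by ring
      _ ≤ (6 * s ^ 4 + 6 * C2 * s ^ 2) * s ^ t := h7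
      _ = 6 * s * s ^ (t + 3) + 6 * C2 * s * s ^ (t + 1) := by ring
      _ ≤ 6 * s * wB m s Y k + 6 * C2 * s * wB m s Y (k + 2) :=
        Nat.add_le_add (Nat.mul_le_mul_left _ h0) h10
      _ = _ := by ring

end B

section C

variable (m c : ℕ)

/-- weights: the entries above `c` come last, in increasing order -/
def wC (k : ℕ) : ℕ := if k < c then m.choose c * m ^ (c - k) - m.choose k else 0

variable {m c}

/-- `C(m, k) m ^ k` increases with `k` -/
theorem bin_mono {k l : ℕ} (hkl : k ≤ l) (hl : l ≤ m) :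
    m.choose k * m ^ k ≤ m.choose l * m ^ l := by
  induction l, hkl using Nat.le_induction with
  | base => exact le_rfl
  | succ l hkl ih =>
    refine (ih (by omega)).trans ?_
    have h1 := Nat.choose_succ_right_eq m l
    have h2 : m.choose l ≤ m.choose (l + 1) * (l + 1) := by
      rw [h1]
      exact Nat.le_mul_of_pos_right _ (by omega)
    calc m.choose l * m ^ l ≤ m.choose (l + 1) * (l + 1) * m ^ l := Nat.mul_le_mul_right _ h2
      _ ≤ m.choose (l + 1) * m * m ^ l := by
        exact Nat.mul_le_mul_right _ (Nat.mul_le_mul_left _ hl)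
      _ = m.choose (l + 1) * m ^ (l + 1) := by ring

theorem bin_le (hm : 1 ≤ m) {k : ℕ} (hk : k ≤ c) (hc : c ≤ m) :
    m.choose k ≤ m.choose c * m ^ (c - k) := by
  have h1 := bin_mono hk hc
  have h2 : m ^ c = m ^ (c - k) * m ^ k := by
    rw [← pow_add]
    congr 1
    omega
  rw [h2, ← mul_assoc] at h1
  exact Nat.le_of_mul_le_mul_right h1 (pow_pos (by omega) _)

theorem cond_C (hm : 1 ≤ m) (hc : c ≤ m) : Cond m (wC m c) := by
  have h1 : ∀ k, 1 ≤ k → (k + 1) * wC m c (k + 1) ≤ wC m c k := by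
    intro k _
    rw [wC]
    split_ifs with h
    · rw [wC, if_pos (by omega)]
      have h2 := bin_le hm (k := k) (by omega) hc
      have h3 := bin_le hm (k := k + 1) (by omega) hc
      have h4 := Nat.choose_succ_right_eq m k
      have h5 : m.choose k ≤ (k + 1) * m.choose (k + 1) := by
        rw [mul_comm, h4]
        exact Nat.le_mul_of_pos_right _ (by omega)
      have h6 : (k + 1) * (m.choose c * m ^ (c - (k + 1))) ≤ m.choose c * m ^ (c - k) := by
        have h7 : m ^ (c - k) = m * m ^ (c - (k + 1)) := by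
          rw [← pow_succ']
          congr 1
          omega
        rw [h7]
        calc (k + 1) * (m.choose c * m ^ (c - (k + 1))) ≤
            m * (m.choose c * m ^ (c - (k + 1))) := Nat.mul_le_mul_right _ (by omega)
          _ = _ := by ring
      rw [Nat.mul_sub]
      omega
    · rw [mul_zero]
      exact Nat.zero_le _
  refine ⟨fun j hj => by rw [wC, if_neg (by omega)], fun k hk hkm => ?_⟩
  have h2 := h1 k hk
  have h3 := h1 (k + 2) (by omega)
  have h4 : (k + 3).choose 3 * wC m c (k + 3) ≤ (k + 2).choose 2 * wC m c (k + 2) := by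
    have h5 := Nat.mul_le_mul_left ((k + 2).choose 2) h3
    have h6 : 3 * (k + 3).choose 3 = (k + 2).choose 2 * (k + 2 + 1) := by
      have e2 := c2 k
      have e3 := c3 k
      refine Nat.eq_of_mul_eq_mul_left (show 0 < 2 by norm_num) ?_
      calc 2 * (3 * (k + 3).choose 3) = 6 * (k + 3).choose 3 := by ring
        _ = (k + 1) * (k + 2) * (k + 3) := e3
        _ = 2 * (k + 2).choose 2 * (k + 3) := by rw [e2]
        _ = _ := by ring
    calc (k + 3).choose 3 * wC m c (k + 3) ≤ 3 * (k + 3).choose 3 * wC m c (k + 3) := by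
          rw [mul_assoc]
          omega
      _ = (k + 2).choose 2 * ((k + 2 + 1) * wC m c (k + 2 + 1)) := by
          rw [h6]
          ring
      _ ≤ _ := h5
  exact Nat.add_le_add h2 h4

end C

end Pool.Agent.Helper49.IP
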