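import Pool.Agent.Helper49.IP.Count

/-!
# Independent set permutations: the entropy inequality
-/

set_option autoImplicit false

namespace Pool.Agent.Helper49.IP

open Finset

section

variable {V : Type*} [Fintype V] (G : SimpleGraph V) (m : ℕ)

open Classical in
/-- the ordered maximum independent sets which agree with `f` on `A` -/
noncomputable def cls (A : Finset (Fin m)) (f : Fin m → V) : Finset (Fin m → V) :=
  (ordInd G m).filter fun g => ∀ i ∈ A, g i = f i

/-- the entropy functional -/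
noncomputable def Phi (A : Finset (Fin m)) : ℝ := ∑ f ∈ ordInd G m, Real.log ((cls G m A f).card : ℝ)

variable {G m}

theorem mem_cls {A : Finset (Fin m)} {f g : Fin m → V} :
    g ∈ cls G m A f ↔ g ∈ ordInd G m ∧ ∀ i ∈ A, g i = f i := by
  simp [cls]

theorem self_mem_cls {A : Finset (Fin m)} {f : Fin m → V} (hf : f ∈ ordInd G m) :
    f ∈ cls G m A f := mem_cls.2 ⟨hf, fun _ _ => rfl⟩

theorem cls_pos {A : Finset (Fin m)} {f : Fin m → V} (hf : f ∈ ordInd G m) :
    0 < ((cls G m A f).card : ℝ) := by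
  exact_mod_cast card_pos.2 ⟨f, self_mem_cls hf⟩

theorem cls_eq {A : Finset (Fin m)} {f g : Fin m → V} (h : g ∈ cls G m A f) :
    cls G m A g = cls G m A f := by
  ext h'
  rw [mem_cls, mem_cls]
  have h1 := (mem_cls.1 h).2
  exact and_congr_right fun _ => ⟨fun h2 i hi => (h2 i hi).trans (h1 i hi),
    fun h2 i hi => (h2 i hi).trans (h1 i hi).symm⟩

theorem comp_mem {f : Fin m → V} (σ : Equiv.Perm (Fin m)) (hf : f ∈ ordInd G m) :
    f ∘ σ ∈ ordInd G m := by
  rw [mem_ordInd] at hf ⊢
  exact fun i j hij => hf _ _ fun h => hij (σ.injective h)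

theorem comp_mem_iff {f : Fin m → V} (σ : Equiv.Perm (Fin m)) :
    f ∘ σ ∈ ordInd G m ↔ f ∈ ordInd G m := by
  refine ⟨fun h => ?_, comp_mem σ⟩
  have h1 := comp_mem σ.symm h
  rwa [Function.comp_assoc, Equiv.self_comp_symm, Function.comp_id] at h1

theorem card_cls_map (σ : Equiv.Perm (Fin m)) (A : Finset (Fin m)) (f : Fin m → V) :
    (cls G m (A.map σ.toEmbedding) f).card = (cls G m A (f ∘ σ)).card := by
  refine card_bij (fun g _ => g ∘ σ) ?_ ?_ ?_
  · intro g hg
    rw [mem_cls] at hg ⊢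
    exact ⟨comp_mem σ hg.1, fun i hi => hg.2 _ (mem_map_of_mem _ hi)⟩
  · intro g _ g' _ h
    exact σ.surjective.injective_comp_right h
  · intro g hg
    rw [mem_cls] at hg
    refine ⟨g ∘ σ.symm, ?_, ?_⟩
    · rw [mem_cls]
      refine ⟨comp_mem _ hg.1, fun i hi => ?_⟩
      rw [mem_map] at hi
      obtain ⟨l, hl, rfl⟩ := hi
      simpa using hg.2 l hl
    · rw [Function.comp_assoc, Equiv.symm_comp_self, Function.comp_id]

theorem Phi_map (σ : Equiv.Perm (Fin m)) (A : Finset (Fin m)) :
    Phi G m (A.map σ.toEmbedding) = Phi G m A := by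
  rw [Phi, Phi]
  simp_rw [card_cls_map]
  refine sum_bij (fun f _ => f ∘ σ) (fun f hf => comp_mem σ hf) ?_ ?_ fun _ _ => rfl
  · intro g _ g' _ h
    exact σ.surjective.injective_comp_right h
  · intro g hg
    exact ⟨g ∘ σ.symm, comp_mem _ hg, by
      rw [Function.comp_assoc, Equiv.symm_comp_self, Function.comp_id]⟩

theorem Phi_insert {A : Finset (Fin m)} {i j : Fin m} (hi : i ∉ A) (hj : j ∉ A) :
    Phi G m (insert i A) = Phi G m (insert j A) := by
  rw [← Phi_map (Equiv.swap i j) (insert i A)]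
  congr 1
  ext l
  rw [mem_map, mem_insert]
  constructor
  · rintro ⟨l', hl', rfl⟩
    rw [mem_insert] at hl'
    rcases hl' with rfl | h
    · left
      simp
    · right
      have h1 : l' ≠ i := fun h' => hi (h' ▸ h)
      have h2 : l' ≠ j := fun h' => hj (h' ▸ h)
      simpa [Equiv.swap_apply_of_ne_of_ne h1 h2] using h
  · rintro (rfl | h)
    · exact ⟨i, mem_insert_self _ _, by simp⟩
    · have h1 : l ≠ i := fun h' => hi (h' ▸ h)
      have h2 : l ≠ j := fun h' => hj (h' ▸ h)
      exact ⟨l, mem_insert_of_mem h, by simpa using Equiv.swap_apply_of_ne_of_ne h1 h2⟩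

theorem Phi_erase (i j : Fin m) : Phi G m (univ.erase i) = Phi G m (univ.erase j) := by
  rw [← Phi_map (Equiv.swap i j) (univ.erase i)]
  congr 1
  ext l
  rw [mem_map, mem_erase]
  simp only [mem_univ, and_true, mem_erase, Equiv.coe_toEmbedding]
  constructor
  · rintro ⟨l', hl', rfl⟩ h
    rw [Equiv.swap_apply_eq_iff, Equiv.swap_apply_right] at h
    exact hl' h
  · intro h
    refine ⟨Equiv.swap i j l, ?_, Equiv.swap_apply_self _ _ _⟩
    intro h'
    rw [Equiv.swap_apply_eq_iff, Equiv.swap_apply_left] at h'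
    exact h h'

/-- resampling one coordinate -/
theorem resample (A : Finset (Fin m)) (ψ : (Fin m → V) → ℝ) :
    ∑ f ∈ ordInd G m, ∑ h ∈ cls G m A f, ((cls G m A f).card : ℝ)⁻¹ * ψ h =
      ∑ h ∈ ordInd G m, ψ h := by
  classical
  have h1 : ∀ f ∈ ordInd G m, ∑ h ∈ cls G m A f, ((cls G m A f).card : ℝ)⁻¹ * ψ h =
      ∑ h ∈ ordInd G m, if h ∈ cls G m A f then ((cls G m A f).card : ℝ)⁻¹ * ψ h else 0 := by
    intro f _
    rw [← sum_filter]
    refine sum_congr ?_ fun _ _ => rfl
    ext h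
    rw [mem_filter]
    exact ⟨fun h' => ⟨(mem_cls.1 h').1, h'⟩, fun h' => h'.2⟩
  rw [sum_congr rfl h1, sum_comm]
  refine sum_congr rfl fun h hh => ?_
  have h2 : ∀ f ∈ ordInd G m, (if h ∈ cls G m A f then ((cls G m A f).card : ℝ)⁻¹ * ψ h else 0) =
      if f ∈ cls G m A h then ((cls G m A h).card : ℝ)⁻¹ * ψ h else 0 := by
    intro f hf
    have h3 : h ∈ cls G m A f ↔ f ∈ cls G m A h := by
      rw [mem_cls, mem_cls]
      exact ⟨fun h' => ⟨hf, fun i hi => (h'.2 i hi).symm⟩,
        fun h' => ⟨hh, fun i hi => (h'.2 i hi).symm⟩⟩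
    by_cases h4 : f ∈ cls G m A h
    · rw [if_pos h4, if_pos (h3.2 h4), cls_eq h4]
    · rw [if_neg h4, if_neg fun h5 => h4 (h3.1 h5)]
  rw [sum_congr rfl h2, ← sum_filter]
  have h5 : (ordInd G m).filter (fun f => f ∈ cls G m A h) = cls G m A h := by
    ext f
    rw [mem_filter]
    exact ⟨fun h' => h'.2, fun h' => ⟨(mem_cls.1 h').1, h'⟩⟩
  rw [h5, sum_const, nsmul_eq_mul, ← mul_assoc, mul_inv_cancel₀ (cls_pos hh).ne', one_mul]

/-- disjointness: no independent set with `m + 1` elements -/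
theorem disj (hα : ordInd G (m + 1) = ∅) {f h h' : Fin m → V} {i i' : Fin m}
    (hf : f ∈ ordInd G m) (hh : h ∈ cls G m (univ.erase i) f)
    (hh' : h' ∈ cls G m (univ.erase i') f) (he : h i = h' i') : i = i' ∧ h = h' := by
  rw [mem_cls] at hh hh'
  have e1 : ∀ l, l ≠ i → h l = f l := fun l hl => hh.2 l (mem_erase.2 ⟨hl, mem_univ _⟩)
  have e2 : ∀ l, l ≠ i' → h' l = f l := fun l hl => hh'.2 l (mem_erase.2 ⟨hl, mem_univ _⟩)
  by_cases hii : i = i'
  · subst hii
    refine ⟨rfl, ?_⟩
    ext l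
    by_cases hl : l = i
    · rw [hl, he]
    · rw [e1 l hl, e2 l hl]
  · exfalso
    have key : ∀ l, h i ≠ f l ∧ ¬ G.Adj (h i) (f l) := by
      intro l
      by_cases hl : l = i
      · have hl' : l ≠ i' := fun h'' => hii (hl.symm.trans h'')
        have h3 := mem_ordInd.1 hh'.1 i' l hl'.symm
        rw [e2 l hl', ← he] at h3
        exact h3
      · have h3 := mem_ordInd.1 hh.1 i l (Ne.symm hl)
        rw [e1 l hl] at h3
        exact h3
    have h4 : Fin.cons (α := fun _ => V) (h i) f ∈ ordInd G (m + 1) := by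
      rw [mem_ordInd]
      intro a b hab
      induction a using Fin.cases with
      | zero =>
        induction b using Fin.cases with
        | zero => exact absurd rfl hab
        | succ b => simpa using key b
      | succ a =>
        induction b using Fin.cases with
        | zero =>
          have h5 := key a
          simp only [Fin.cons_succ, Fin.cons_zero]
          exact ⟨h5.1.symm, fun h6 => h5.2 h6.symm⟩
        | succ b =>
          simp only [Fin.cons_succ]
          exact mem_ordInd.1 hf a b fun h5 => hab (by rw [h5])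
    rw [hα] at h4
    simp at h4

/-- the counting inequality behind the Gibbs inequality -/
theorem gibbs_count (hα : ordInd G (m + 1) = ∅) {f : Fin m → V} (hf : f ∈ ordInd G m)
    (A : Finset (Fin m)) :
    ∑ i ∈ Aᶜ, ∑ h ∈ cls G m (univ.erase i) f, (cls G m (insert i A) h).card ≤
      (cls G m A f).card := by
  classical
  rcases Aᶜ.eq_empty_or_nonempty with h0 | ⟨j, hj⟩
  · rw [h0, sum_empty]
    exact Nat.zero_le _
  rw [mem_compl] at hj
  rw [sum_sigma' Aᶜ (fun i => cls G m (univ.erase i) f)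
    (fun i h => (cls G m (insert i A) h).card)]
  have h1 : ∀ x ∈ Aᶜ.sigma (fun i => cls G m (univ.erase i) f),
      (cls G m (insert x.1 A) x.2).card =
        ((cls G m A f).filter fun g => g j = x.2 x.1).card := by
    rintro ⟨i, h⟩ hx
    rw [mem_sigma, mem_compl] at hx
    obtain ⟨hi, hh⟩ := hx
    simp only at hi hh ⊢
    have hA : ∀ l ∈ A, h l = f l := fun l hl =>
      (mem_cls.1 hh).2 l (mem_erase.2 ⟨fun h' => hi (h' ▸ hl), mem_univ _⟩)
    have hfix : ∀ l ∈ A, Equiv.swap i j l = l := fun l hl =>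
      Equiv.swap_apply_of_ne_of_ne (fun h' => hi (h' ▸ hl)) fun h' => hj (h' ▸ hl)
    refine card_bij (fun g _ => g ∘ Equiv.swap i j) ?_ ?_ ?_
    · intro g hg
      rw [mem_cls] at hg
      rw [mem_filter, mem_cls]
      refine ⟨⟨comp_mem _ hg.1, fun l hl => ?_⟩, ?_⟩
      · rw [Function.comp_apply, hfix l hl, hg.2 l (mem_insert_of_mem hl), hA l hl]
      · rw [Function.comp_apply, Equiv.swap_apply_right, hg.2 i (mem_insert_self _ _)]
    · intro g _ g' _ h'
      exact (Equiv.swap i j).surjective.injective_comp_right h'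
    · intro g hg
      rw [mem_filter, mem_cls] at hg
      refine ⟨g ∘ Equiv.swap i j, ?_, ?_⟩
      · rw [mem_cls]
        refine ⟨comp_mem _ hg.1.1, fun l hl => ?_⟩
        rw [mem_insert] at hl
        rcases hl with rfl | hl
        · rw [Function.comp_apply, Equiv.swap_apply_left, hg.2]
        · rw [Function.comp_apply, hfix l hl, hg.1.2 l hl, hA l hl]
      · ext l
        simp
  rw [sum_congr rfl h1, ← card_biUnion]
  · refine card_le_card ?_
    intro g hg
    rw [mem_biUnion] at hg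
    obtain ⟨x, -, hx⟩ := hg
    exact (mem_filter.1 hx).1
  · rintro ⟨i, h⟩ hx ⟨i', h'⟩ hx' hne
    rw [Function.onFun, disjoint_left]
    intro g hg hg'
    rw [mem_filter] at hg hg'
    simp only [coe_sigma, Set.mem_sigma_iff, mem_coe] at hx hx'
    obtain ⟨rfl, rfl⟩ := disj hα hf hx.2 hx'.2 (hg.2.symm.trans hg'.2)
    exact hne rfl

end

end Pool.Agent.Helper49.IP
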