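import Pool.Agent.Helper49.IP.Count

/-!
# Independent set permutations: joins of disjoint unions of complete graphs
-/

set_option autoImplicit false

namespace Pool.Agent.Helper49.IP

open Finset

section

variable {ι : Type} (m s : ℕ) (κ : ι → ℕ)

/-- vertices: piece, clique of the piece, vertex of the clique -/
abbrev PV : Type := {x : ι × Fin m × Fin s // (x.2.1 : ℕ) < κ x.1}

/-- the join over all pieces `p` of the disjoint unions of `κ p` complete graphs with `s`
vertices -/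
def PG : SimpleGraph (PV m s κ) where
  Adj x y := x ≠ y ∧ (x.1.1 ≠ y.1.1 ∨ x.1.2.1 = y.1.2.1)
  symm := ⟨fun _ _ h => ⟨h.1.symm, h.2.imp (fun h' => h'.symm) fun h' => h'.symm⟩⟩
  loopless := ⟨fun _ h => h.1 rfl⟩

variable {m s κ}

theorem PG_ind {x y : PV m s κ} :
    (x ≠ y ∧ ¬ (PG m s κ).Adj x y) ↔ x.1.1 = y.1.1 ∧ x.1.2.1 ≠ y.1.2.1 := by
  constructor
  · rintro ⟨h1, h2⟩
    constructor
    · by_contra h3
      exact h2 ⟨h1, Or.inl h3⟩
    · intro h3
      exact h2 ⟨h1, Or.inr h3⟩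
  · rintro ⟨h1, h2⟩
    refine ⟨fun h => h2 (by rw [h]), ?_⟩
    rintro ⟨-, h3 | h3⟩
    · exact h3 h1
    · exact h2 h3

variable [Fintype ι]

theorem card_PG (hκ : ∀ p, κ p ≤ m) {k : ℕ} (hk : 1 ≤ k) :
    (ordInd (PG m s κ) k).card = ∑ p, (κ p).descFactorial k * s ^ k := by
  classical
  have h0 : Fintype.card (Σ p : ι, (Fin k ↪ Fin (κ p)) × (Fin k → Fin s)) =
      ∑ p, (κ p).descFactorial k * s ^ k := by
    rw [Fintype.card_sigma]
    refine sum_congr rfl fun p _ => ?_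
    rw [Fintype.card_prod, Fintype.card_embedding_eq, Fintype.card_fun]
    simp only [Fintype.card_fin]
  rw [← h0, ← card_univ]
  symm
  refine card_bij (fun (x : Σ p : ι, (Fin k ↪ Fin (κ p)) × (Fin k → Fin s)) _ =>
    fun i => (⟨(x.1, Fin.castLE (hκ x.1) (x.2.1 i), x.2.2 i), (x.2.1 i).2⟩ : PV m s κ)) ?_ ?_ ?_
  · rintro ⟨p, e, h⟩ _
    rw [mem_ordInd]
    intro i j hij
    rw [PG_ind]
    refine ⟨rfl, fun h' => hij (e.injective ?_)⟩
    exact Fin.castLE_injective (hκ p) h'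
  · rintro ⟨p, e, h⟩ _ ⟨p', e', h'⟩ _ heq
    have h1 : p = p' := by
      have h2 := congrArg (fun x : PV m s κ => x.1.1) (congrFun heq ⟨0, hk⟩)
      exact h2
    subst h1
    have h3 : e = e' := by
      ext i
      have h2 := congrArg (fun x : PV m s κ => (x.1.2.1 : ℕ)) (congrFun heq i)
      exact h2
    have h4 : h = h' := by
      ext i
      have h2 := congrArg (fun x : PV m s κ => (x.1.2.2 : ℕ)) (congrFun heq i)
      exact h2
    rw [h3, h4]
  · intro f hf
    rw [mem_ordInd] at hf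
    have h1 : ∀ i, (f i).1.1 = (f ⟨0, hk⟩).1.1 := by
      intro i
      by_cases hi : i = ⟨0, hk⟩
      · rw [hi]
      · exact (PG_ind.1 (hf _ _ hi)).1
    have h2 : ∀ i, ((f i).1.2.1 : ℕ) < κ (f ⟨0, hk⟩).1.1 := by
      intro i
      rw [← h1 i]
      exact (f i).2
    have h3 : Function.Injective fun i => (⟨(f i).1.2.1, h2 i⟩ : Fin (κ (f ⟨0, hk⟩).1.1)) := by
      intro i j hij
      by_contra hne
      refine (PG_ind.1 (hf i j hne)).2 ?_
      rw [Fin.ext_iff]
      exact congrArg (fun x : Fin (κ (f ⟨0, hk⟩).1.1) => (x : ℕ)) hij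
    refine ⟨⟨(f ⟨0, hk⟩).1.1, ⟨_, h3⟩, fun i => (f i).1.2.2⟩, mem_univ _, ?_⟩
    ext i : 1
    apply Subtype.ext
    refine Prod.ext (h1 i).symm (Prod.ext ?_ rfl)
    rfl

theorem count_PG (hκ : ∀ p, κ p ≤ m) {k : ℕ} (hk : 1 ≤ k) :
    indCount (PG m s κ) k = ∑ p, (κ p).choose k * s ^ k := by
  have h1 := card_PG (s := s) hκ hk
  rw [card_ordInd] at h1
  refine Nat.eq_of_mul_eq_mul_left (Nat.factorial_pos k) (h1.trans ?_)
  rw [mul_sum]
  refine sum_congr rfl fun p _ => ?_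
  rw [Nat.descFactorial_eq_factorial_mul_choose, mul_assoc]

end

/-- graphs from multiplicities -/
theorem exists_graph (m s : ℕ) (hm : 1 ≤ m) (hs : 1 ≤ s) (q : ℕ → ℕ) (hq : 1 ≤ q m) :
    ∃ (V : Type) (_ : Fintype V) (G : SimpleGraph V), G.indepNum = m ∧
      ∀ k, 1 ≤ k → indCount G k = (∑ j ∈ range (m + 1), q j * j.choose k) * s ^ k := by
  classical
  set κ : (Σ j : Fin (m + 1), Fin (q j)) → ℕ := fun p => p.1 with hκ
  have hle : ∀ p, κ p ≤ m := fun p => Nat.lt_succ_iff.1 p.1.2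
  have hcount : ∀ k, 1 ≤ k → indCount (PG m s κ) k =
      (∑ j ∈ range (m + 1), q j * j.choose k) * s ^ k := by
    intro k hk
    rw [count_PG hle hk, Fintype.sum_sigma, sum_mul, ← Fin.sum_univ_eq_sum_range
      (fun j => q j * j.choose k * s ^ k)]
    refine sum_congr rfl fun j _ => ?_
    simp only [hκ]
    rw [sum_const, card_univ, Fintype.card_fin, smul_eq_mul, mul_assoc]
  refine ⟨PV m s κ, inferInstance, PG m s κ, ?_, hcount⟩
  apply indepNum_eq
  · rw [hcount m hm]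
    have h1 : q m * m.choose m ≤ ∑ j ∈ range (m + 1), q j * j.choose m :=
      single_le_sum (f := fun j => q j * j.choose m) (fun _ _ => Nat.zero_le _)
        (mem_range.2 (Nat.lt_succ_self m))
    rw [Nat.choose_self, mul_one] at h1
    exact Nat.mul_ne_zero (by omega) (pow_ne_zero _ (by omega))
  · rw [hcount (m + 1) (by omega)]
    rw [sum_eq_zero, zero_mul]
    intro j hj
    rw [Nat.choose_eq_zero_of_lt (by rw [mem_range] at hj; omega), mul_zero]

end Pool.Agent.Helper49.IP
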