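import Pool.Agent.Helper49.IP.Pieces

/-!
# Independent set permutations: multiplicities with prescribed sums
-/

set_option autoImplicit false

namespace Pool.Agent.Helper49.IP

open Finset

theorem choose_rel (j k i : ℕ) : (k + i).choose i * j.choose (k + i) =
    j.choose k * (j - k).choose i := by
  have h1 := Nat.choose_mul (n := j) (Nat.le_add_right k i)
  rw [Nat.add_sub_cancel_left, Nat.choose_symm_add] at h1
  rw [mul_comm, h1]

theorem bonf (J : ℕ) (hJ : 1 ≤ J) : 1 + J.choose 2 ≤ J + J.choose 3 := by
  obtain ⟨n, rfl⟩ : ∃ n, J = n + 1 := ⟨J - 1, by omega⟩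
  have e1 : (n + 1).choose 2 = n.choose 1 + n.choose 2 := rfl
  have e2 : (n + 1).choose 3 = n.choose 2 + n.choose 3 := rfl
  rw [Nat.choose_one_right] at e1
  omega

theorem choose_ineq (j k : ℕ) (h : k < j) :
    j.choose k + (k + 2).choose 2 * j.choose (k + 2) ≤
      (k + 1) * j.choose (k + 1) + (k + 3).choose 3 * j.choose (k + 3) := by
  have h1 := choose_rel j k 1
  rw [Nat.choose_one_right, Nat.choose_one_right] at h1
  rw [h1, choose_rel, choose_rel]
  have h2 := bonf (j - k) (by omega)
  calc j.choose k + j.choose k * (j - k).choose 2 = j.choose k * (1 + (j - k).choose 2) := by ring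
    _ ≤ j.choose k * (j - k + (j - k).choose 3) := Nat.mul_le_mul_left _ h2
    _ = _ := by ring

/-- the condition on the weights -/
def Cond (m : ℕ) (w : ℕ → ℕ) : Prop :=
  (∀ j, m < j → w j = 0) ∧ ∀ k, 1 ≤ k → k ≤ m →
    (k + 1) * w (k + 1) + (k + 3).choose 3 * w (k + 3) ≤ w k + (k + 2).choose 2 * w (k + 2)

theorem exists_mult {m : ℕ} {w : ℕ → ℕ} (h : Cond m w) :
    ∃ q : ℕ → ℕ, ∀ k, 1 ≤ k → ∑ j ∈ range (m + 1), q j * j.choose k = w k := by
  have key : ∀ d, d ≤ m → ∃ q : ℕ → ℕ, ∀ k, m - d + 1 ≤ k →
      ∑ j ∈ range (m + 1), q j * j.choose k = w k := by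
    intro d
    induction d with
    | zero =>
      intro _
      refine ⟨fun _ => 0, fun k hk => ?_⟩
      rw [h.1 k (by omega)]
      simp
    | succ d ih =>
      intro hd
      obtain ⟨q, hq⟩ := ih (by omega)
      set k₀ := m - d with hk₀
      have hk1 : 1 ≤ k₀ := by omega
      have hkm : k₀ ≤ m := by omega
      -- the sum over the larger indices
      set S := ∑ j ∈ (range (m + 1)).filter (fun j => k₀ < j), q j * j.choose k₀ with hS
      have hfil : ∀ k, k₀ < k → ∑ j ∈ (range (m + 1)).filter (fun j => k₀ < j), q j * j.choose k =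
          w k := by
        intro k hk
        rw [← hq k (by omega)]
        refine sum_filter_of_ne fun j _ hj => ?_
        by_contra hcon
        rw [Nat.choose_eq_zero_of_lt (by omega), mul_zero] at hj
        exact hj rfl
      have hSle : S ≤ w k₀ := by
        have h1 : ∀ j ∈ (range (m + 1)).filter (fun j => k₀ < j),
            q j * j.choose k₀ + (k₀ + 2).choose 2 * (q j * j.choose (k₀ + 2)) ≤
              (k₀ + 1) * (q j * j.choose (k₀ + 1)) +
                (k₀ + 3).choose 3 * (q j * j.choose (k₀ + 3)) := by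
          intro j hj
          have h2 := choose_ineq j k₀ (mem_filter.1 hj).2
          calc q j * j.choose k₀ + (k₀ + 2).choose 2 * (q j * j.choose (k₀ + 2)) =
              q j * (j.choose k₀ + (k₀ + 2).choose 2 * j.choose (k₀ + 2)) := by ring
            _ ≤ q j * ((k₀ + 1) * j.choose (k₀ + 1) + (k₀ + 3).choose 3 * j.choose (k₀ + 3)) :=
              Nat.mul_le_mul_left _ h2
            _ = _ := by ring
        have h3 := sum_le_sum h1
        rw [sum_add_distrib, sum_add_distrib, ← mul_sum, ← mul_sum, ← mul_sum,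
          hfil (k₀ + 2) (by omega), hfil (k₀ + 1) (by omega),
          hfil (k₀ + 3) (by omega)] at h3
        have h4 := h.2 k₀ hk1 hkm
        omega
      refine ⟨Function.update q k₀ (w k₀ - S), fun k hk => ?_⟩
      rcases (show k₀ ≤ k by omega).eq_or_lt with h5 | h5
      · subst h5
        rw [← add_sum_erase (range (m + 1)) _ (mem_range.2 (Nat.lt_succ_of_le hkm))]
        rw [Function.update_self, Nat.choose_self, mul_one]
        have h6 : ∑ j ∈ (range (m + 1)).erase k₀,
            Function.update q k₀ (w k₀ - S) j * j.choose k₀ = S := by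
          rw [hS]
          symm
          have h7 : (range (m + 1)).filter (fun j => k₀ < j) ⊆ (range (m + 1)).erase k₀ := by
            intro j hj
            rw [mem_filter] at hj
            exact mem_erase.2 ⟨by omega, hj.1⟩
          rw [← sum_subset h7]
          · refine sum_congr rfl fun j hj => ?_
            rw [Function.update_of_ne (by rw [mem_filter] at hj; omega)]
          · intro j hj hj'
            rw [mem_erase] at hj
            rw [mem_filter, not_and] at hj'
            have h8 := hj' hj.2
            rw [Nat.choose_eq_zero_of_lt (by omega), mul_zero]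
        rw [h6]
        omega
      · rw [← hq k (by omega)]
        refine sum_congr rfl fun j _ => ?_
        by_cases hj : j = k₀
        · subst hj
          rw [Nat.choose_eq_zero_of_lt h5, mul_zero, mul_zero]
        · rw [Function.update_of_ne hj]
  obtain ⟨q, hq⟩ := key m le_rfl
  exact ⟨q, fun k hk => hq k (by omega)⟩

/-- graphs with prescribed counts -/
theorem realize {m s : ℕ} (hm : 1 ≤ m) (hs : 1 ≤ s) {w : ℕ → ℕ} (h : Cond m w) (hw : 1 ≤ w m) :
    ∃ (V : Type) (_ : Fintype V) (G : SimpleGraph V), G.indepNum = m ∧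
      ∀ k, 1 ≤ k → indCount G k = w k * s ^ k := by
  obtain ⟨q, hq⟩ := exists_mult h
  have hqm : q m = w m := by
    rw [← hq m hm, sum_range_succ, Nat.choose_self, mul_one, sum_eq_zero, zero_add]
    intro j hj
    rw [Nat.choose_eq_zero_of_lt (mem_range.1 hj), mul_zero]
  obtain ⟨V, i, G, h1, h2⟩ := exists_graph m s hm hs q (by rw [hqm]; exact hw)
  exact ⟨V, i, G, h1, fun k hk => by rw [h2 k hk, hq k hk]⟩

/-- the same with one piece of `m` complete graphs added -/
theorem realize' {m s : ℕ} (hm : 1 ≤ m) (hs : 1 ≤ s) {w : ℕ → ℕ} (h : Cond m w) :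
    ∃ (V : Type) (_ : Fintype V) (G : SimpleGraph V), G.indepNum = m ∧
      ∀ k, 1 ≤ k → indCount G k = (m.choose k + w k) * s ^ k := by
  obtain ⟨q, hq⟩ := exists_mult h
  obtain ⟨V, i, G, h1, h2⟩ := exists_graph m s hm hs (fun j => q j + if j = m then 1 else 0)
    (by simp)
  refine ⟨V, i, G, h1, fun k hk => ?_⟩
  rw [h2 k hk]
  congr 1
  simp_rw [add_mul, sum_add_distrib]
  rw [hq k hk, add_comm]
  congr 1
  rw [sum_eq_single m]
  · simp
  · intro j _ hj
    rw [if_neg hj, zero_mul]
  · intro hj
    simp at hj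

end Pool.Agent.Helper49.IP
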